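import Pool.Agent.X333.MC.Pt

/-!
Subvarieties of varieties of log general type given by nested sums of few high powers of monomials.
-/

set_option autoImplicit false

open FF MvPolynomial Pool.Agent.TH710.ND Pool.Agent.W603.LV Pool.Agent.W603.PV
open Pool.Agent.W602.GT (val val_smul val_mul IsForm wc wc_form wc_of_orbit VarPts PtsU SubVarU
  IsComponentU ConeU DiagCurve Acts specialise GeneralType LogGeneralType OffU coords)
open Pool.Agent.X333.NM (MapU map_of_sub)
open Pool.Agent.X333.MC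

namespace Pool.Agent.X333.SV

variable {k : Type} [Field k] {n : ℕ} {ι : Type} {K : Type} [Field K] [Algebra k K]

section defs

variable (k) (U : Set (Fin (n + 1))) (y : Fin (n + 1) → K)

/-- The part `V` of the closed subvariety with generic point `y` where the coordinates with index in
`U` are not zero is strongly of log general type: all closed subvarieties `Z` of positive dimension
of `V` which are not contained in a proper closed subset `G = 0` are of log general type. -/
def StrongLGT : Prop :=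
  ∃ G : MvPolynomial (Fin (n + 1)) k, IsForm G ∧ val y G ≠ 0 ∧
    ∀ (Z : Type) [Field Z] [Algebra k Z] (w : ℕ) (z : Fin (n + 1) → Z), 1 ≤ w →
      SubVarU U (vForms k y) Z w z → val z G ≠ 0 → LogGeneralType k Z w (OffU U z)

/-- The same for all varieties `Z` of positive dimension with a generically finite map to `V`, with
the complement of the inverse image of the hyperplanes with index in `U`. -/
def StrongMapLGT : Prop :=
  ∃ G : MvPolynomial (Fin (n + 1)) k, IsForm G ∧ val y G ≠ 0 ∧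
    ∀ (Z : Type) [Field Z] [Algebra k Z] (w : ℕ) (z : Fin (n + 1) → Z), 1 ≤ w →
      MapU U (vForms k y) Z w z → val z G ≠ 0 → LogGeneralType k Z w (OffU U z)

/-- All (projective) varieties `Z` of positive dimension with a generically finite rational map to
`V`, with image not contained in a proper closed subset `G = 0`, are of general type. -/
def StrongMapGT : Prop :=
  ∃ G : MvPolynomial (Fin (n + 1)) k, IsForm G ∧ val y G ≠ 0 ∧
    ∀ (Z : Type) [Field Z] [Algebra k Z] (w : ℕ) (z : Fin (n + 1) → Z), 1 ≤ w →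
      MapU U (vForms k y) Z w z → val z G ≠ 0 → GeneralType k Z w

/-- The nonconstant orbits of diagonal one-parameter groups which are contained in `V` are contained
in a proper closed subset `G = 0`. -/
def OrbitsSmall : Prop :=
  ∃ G : MvPolynomial (Fin (n + 1)) k, IsForm G ∧ val y G ≠ 0 ∧
    ∀ x b, DiagCurve U (vForms k y) x b → val x G = 0

end defs

theorem strong_of_no [IsAlgClosed k] [CharZero k] [Finite ι] {U : Set (Fin (n + 1))}
    {F : ι → MvPolynomial (Fin (n + 1)) k} {s N h : ℕ}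
    (hF : ∀ e, IsForm (F e) ∧ NestedIn IsMono s N h (F e)) (hN : bnd n s h ≤ N)
    {w : ℕ} {y : Fin (n + 1) → K} (hy : SubVarU U F K w y) (hcomp : IsComponentU U F y)
    (hno : NoActionU k U y) : StrongMapGT k U y := by
  classical
  have hno' : ∀ b : Fin (n + 1) → ℤ, (∀ e v, val y (wc b v (F e)) = 0) →
      ∀ i i', y i ≠ 0 → y i' ≠ 0 → b i = b i' := fun b hb i i' hi hi' =>
    hno b (acts_of_wc hy hcomp hb) i i' hi hi'
  obtain ⟨G, hG, hGy, hGx⟩ := good_form (fun e => (hF e).1) hy hno'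
  refine ⟨G, hG, hGy, fun Z _ _ w' z hw hz hzG => ?_⟩
  by_contra hgt
  have hmem : ∀ e, val z (F e) = 0 := fun e => hz.mem ⟨F e, (hF e).1, hy.mem e⟩
  obtain ⟨b, i, i', hi, hi', hb, hwc⟩ := sparse_n (fun e => (hF e).2) hN hz.ne hz.alg hz.dim hmem
    (not_log hgt)
  obtain ⟨x, hx1, hx2⟩ := specialise z (G * (MvPolynomial.X i * MvPolynomial.X i')) (by
    rw [map_mul, map_mul, MvPolynomial.aeval_X, MvPolynomial.aeval_X]
    exact mul_ne_zero hzG (mul_ne_zero hi hi'))
  rw [map_mul, map_mul, MvPolynomial.aeval_X, MvPolynomial.aeval_X] at hx1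
  have h1 := left_ne_zero_of_mul hx1
  have h2 := right_ne_zero_of_mul hx1
  have hxV : x ∈ VarPts k y := ⟨fun h0 => left_ne_zero_of_mul h2 (congrFun h0 i),
    fun H hH hHy => hx2 H (hz.mem ⟨H, hH, hHy⟩)⟩
  exact hb ((hGx x hxV h1).2 b (fun e v => hx2 _ (hwc e v)) i i' (left_ne_zero_of_mul h2)
    (right_ne_zero_of_mul h2))

theorem small_of_no [IsAlgClosed k] [CharZero k] [Finite ι] {U : Set (Fin (n + 1))}
    {F : ι → MvPolynomial (Fin (n + 1)) k} (hFf : ∀ e, IsForm (F e))
    {w : ℕ} {y : Fin (n + 1) → K} (hy : SubVarU U F K w y) (hcomp : IsComponentU U F y)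
    (hno : NoActionU k U y) : OrbitsSmall k U y := by
  have hinf : Infinite k := inferInstance
  obtain ⟨G, hG, hGy, hGx⟩ := good_form hFf hy fun b hb i i' hi hi' =>
    hno b (acts_of_wc hy hcomp hb) i i' hi hi'
  refine ⟨G, hG, hGy, fun x b ⟨hx, i, i', hi, hi', hb⟩ => ?_⟩
  by_contra hne
  have h0 := hx 1 one_ne_zero
  have h0' : (fun j => (1 : k) ^ b j * x j) = x := by
    funext j
    rw [one_zpow, one_mul]
  rw [h0'] at h0
  exact hb ((hGx x ⟨h0.1, fun H hH hHy => h0.2.2 ⟨H, hH, hHy⟩⟩ hne).2 b (fun e v =>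
    wc_of_orbit (fun t ht => (hx t ht).2.2 ⟨F e, hFf e, hy.mem e⟩) v) i i' hi hi')

theorem no_of_small [IsAlgClosed k] [CharZero k] {U : Set (Fin (n + 1))}
    {y : Fin (n + 1) → K} (hyU : ∀ j ∈ U, y j ≠ 0) (h : OrbitsSmall k U y) :
    NoActionU k U y := by
  classical
  obtain ⟨G, hG, hGy, hGx⟩ := h
  intro b hb i i' hi hi'
  by_contra hbi
  obtain ⟨x, hx1, hx2⟩ := specialise y (G * (MvPolynomial.X i * MvPolynomial.X i') *
    ∏ j ∈ Finset.univ.filter (fun j => j ∈ U), MvPolynomial.X j) (by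
      rw [map_mul, map_mul, map_mul, map_prod]
      simp only [MvPolynomial.aeval_X]
      exact mul_ne_zero (mul_ne_zero hGy (mul_ne_zero hi hi'))
        (Finset.prod_ne_zero_iff.2 fun j hj => hyU j (Finset.mem_filter.1 hj).2))
  rw [map_mul, map_mul, map_mul, map_prod] at hx1
  simp only [MvPolynomial.aeval_X] at hx1
  have h1 := left_ne_zero_of_mul (left_ne_zero_of_mul hx1)
  have h2 := right_ne_zero_of_mul (left_ne_zero_of_mul hx1)
  have h3 := right_ne_zero_of_mul hx1
  have hxP : x ∈ PtsU U k y := ⟨⟨fun h0 => left_ne_zero_of_mul h2 (congrFun h0 i),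
    fun G _ hG => hx2 G hG⟩,
    fun j hj => Finset.prod_ne_zero_iff.1 h3 j (Finset.mem_filter.2 ⟨Finset.mem_univ _, hj⟩)⟩
  refine h1 (hGx x b ⟨fun t ht => ?_, i, i', left_ne_zero_of_mul h2,
    right_ne_zero_of_mul h2, hbi⟩)
  obtain ⟨⟨h4, h5⟩, h6⟩ := hb t ht x hxP
  exact ⟨h4, h6, fun H => h5 H.1 H.2.1 H.2.2⟩

/-- **Lang's conjecture on subvarieties of log general type.** -/
theorem sub_tfae [IsAlgClosed k] [CharZero k] [Finite ι] {U : Set (Fin (n + 1))}
    {F : ι → MvPolynomial (Fin (n + 1)) k} {s N h : ℕ}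
    (hF : ∀ e, IsForm (F e) ∧ NestedIn IsMono s N h (F e))
    (hN : (n + 1) * ((h + 1) * (2 * s + 1) ^ 5) ≤ N)
    {w : ℕ} (hw : 1 ≤ w) {y : Fin (n + 1) → K} (hy : SubVarU U F K w y)
    (hcomp : IsComponentU U F y) :
    [LogGeneralType k K w (OffU U y), GeneralType k K w, StrongLGT k U y, StrongMapLGT k U y,
      StrongMapGT k U y, OrbitsSmall k U y].TFAE := by
  have h1 := comp_lgt hF hN hy hcomp
  have h2 : LogGeneralType k K w (OffU U y) ↔ NoActionU k U y := h1.out 0 7
  obtain ⟨hNb, -, -⟩ := bnd_le hN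
  tfae_have 1 ↔ 2 := h1.out 0 1
  tfae_have 1 → 5 := fun h => strong_of_no hF hNb hy hcomp (h2.1 h)
  tfae_have 5 → 4 := fun ⟨G, hG, hGy, h⟩ => ⟨G, hG, hGy, fun Z _ _ w z hw hz hzG =>
    Pool.Agent.TH710.NR.log_of_general (h Z w z hw hz hzG) _⟩
  tfae_have 4 → 3 := fun ⟨G, hG, hGy, h⟩ => ⟨G, hG, hGy, fun Z _ _ w z hw hz hzG =>
    h Z w z hw (map_of_sub hz) hzG⟩
  tfae_have 3 → 1 := fun ⟨G, hG, hGy, h⟩ => h K w y hw
    ⟨hy.ne, hy.unit, fun H => H.2.2, hy.gen, hy.dim⟩ hGy
  tfae_have 1 → 6 := fun h => small_of_no (fun e => (hF e).1) hy hcomp (h2.1 h)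
  tfae_have 6 → 1 := fun h => h2.2 (no_of_small hy.unit h)
  tfae_finish

end Pool.Agent.X333.SV
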