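import Pool.Agent.X333.SV.Mono
import Pool.Agent.TH710.NU.Affine
import Pool.Agent.TH710.ND.MapsLgt

/-!
Subvarieties of varieties of log general type given by nested sums of few high powers of linear
forms.
-/

set_option autoImplicit false

open FF MvPolynomial Pool.Agent.TH710.ND Pool.Agent.TH710.NU Pool.Agent.W603.LV
  Pool.Agent.W603.PV Pool.Agent.W603.GW Pool.Agent.W603.GX Pool.Agent.W603.GY
open Pool.Agent.W602.GT (val val_smul val_mul IsForm VarPts GeneralType LogGeneralType coords)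
open Pool.Agent.X333.MC (vForms)

namespace Pool.Agent.X333.SV

variable {k : Type} [Field k] {n : ℕ} {ι κ : Type} {K : Type} [Field K] [Algebra k K]

theorem goodL_u {s N : ℕ} (hN2 : (2 * s) ^ 2 ≤ N) (hN1 : 1 ≤ N) {L : List (ℕ × ℕ)}
    (hL : ∀ ke ∈ L, 1 ≤ ke.1 ∧ ke.1 ≤ s ∧ N ≤ ke.2) : GoodL L := by
  intro ke hke
  obtain ⟨h1, h2, h3⟩ := hL ke hke
  refine ⟨by omega, le_trans (Nat.pow_le_pow_left ?_ 2) (hN2.trans h3)⟩
  omega

theorem tower_u {s N h : ℕ} (hN2 : (2 * s) ^ 2 ≤ N) (hN1 : 1 ≤ N)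
    {G : MvPolynomial (Fin (n + 1)) k} (hG : IsNested s N h G) : Tower G := by
  obtain ⟨r, e, L, c, g, hr, he, -, hL, hg, hGe⟩ := hG
  refine ⟨r, e, L, c, g, by omega, ?_, goodL_u hN2 hN1 hL, hg, hGe⟩
  exact le_trans (Nat.pow_le_pow_left (by omega) 2) (hN2.trans he)

theorem towerLog_u {s N h : ℕ} (hN2 : (2 * s) ^ 2 ≤ N) (hN1 : 1 ≤ N)
    {G : MvPolynomial (Fin (n + 1)) k} (hG : IsNested s N h G) : ∃ d, TowerLog G d := by
  obtain ⟨r, e, L, c, g, hr, he, -, hL, hg, hGe⟩ := hG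
  refine ⟨_, r, e, L, c, g, by omega, ?_, goodL_u hN2 hN1 hL, hg, hGe, rfl⟩
  exact le_trans (Nat.pow_le_pow_left (by omega) 2) (hN2.trans he)

section defs

variable (k) (Q : κ → MvPolynomial (Fin (n + 1)) k) (y : Fin (n + 1) → K)

/-- The part `V` of the closed subvariety with generic point `y` where the `Q j` are not zero is
strongly of log general type: all closed subvarieties `Z` of positive dimension of `V` which are not
contained in a proper closed subset `G = 0` are of log general type. -/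
def StrongLGTQ : Prop :=
  ∃ G : MvPolynomial (Fin (n + 1)) k, IsForm G ∧ val y G ≠ 0 ∧
    ∀ (Z : Type) [Field Z] [Algebra k Z] (w : ℕ) (z : Fin (n + 1) → Z), 1 ≤ w →
      SubVarQ (vForms k y) Q Z w z → val z G ≠ 0 → LogGeneralType k Z w (OffAny Q z)

/-- The same for all varieties `Z` of positive dimension with a generically finite map to `V`, with
the complement of the inverse image of the divisors `Q j = 0`. -/
def StrongMapLGTQ : Prop :=
  ∃ G : MvPolynomial (Fin (n + 1)) k, IsForm G ∧ val y G ≠ 0 ∧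
    ∀ (Z : Type) [Field Z] [Algebra k Z] (w : ℕ) (z : Fin (n + 1) → Z), 1 ≤ w →
      MapQ (vForms k y) Q Z w z → val z G ≠ 0 → LogGeneralType k Z w (OffAny Q z)

/-- The points of `V` on lines in the closed subset `F = 0` which meet the union of the divisors
`Q j = 0` in at most two points, in the way of `PunctX`, are contained in a proper closed subset
`G = 0` of `V`. -/
def LinesSmall (F : ι → MvPolynomial (Fin (n + 1)) k) : Prop :=
  ∃ G : MvPolynomial (Fin (n + 1)) k, IsForm G ∧ val y G ≠ 0 ∧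
    ∀ x ∈ VarPts k y, x ∈ PtsQ F Q → PunctX F Q x → val x G = 0

end defs

/-- **Lang's conjecture on subvarieties of log general type.** -/
theorem sub_tfae_q [IsAlgClosed k] [CharZero k] [Finite κ]
    {F : ι → MvPolynomial (Fin (n + 1)) k} {Q : κ → MvPolynomial (Fin (n + 1)) k} {s N h : ℕ}
    (hF : ∀ i, IsNested s N h (F i)) (hQ : ∀ j, IsNested s N h (Q j))
    (hN : (n + 1) * ((h + 1) * (2 * s + 1) ^ 5) ≤ N)
    {w : ℕ} (hw : 1 ≤ w) {y : Fin (n + 1) → K} (hy : SubVarQ F Q K w y)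
    (hcomp : IsComponentQ F Q y) :
    [LogGeneralType k K w (OffAny Q y), StrongLGTQ k Q y, StrongMapLGTQ k Q y,
      LinesSmall k Q y F].TFAE := by
  classical
  obtain ⟨hNb, hN2, hN1⟩ := bnd_le hN
  have hFt : ∀ i, Tower (F i) := fun i => tower_u hN2 hN1 (hF i)
  have hQt : ∀ j, ∃ d, TowerLog (Q j) d := fun j => towerLog_u hN2 hN1 (hQ j)
  have hFf : ∀ i, IsForm (F i) := fun i => (hFt i).hom
  have hQf : ∀ j, IsForm (Q j) := fun j => by
    obtain ⟨d, hd⟩ := hQt j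
    exact ⟨d, hd.hom⟩
  have h1 := comp_bounds hFt hQt hy hcomp
  have h2 : LinBound y Q ↔ LinesSmall k Q y F := h1.out 0 4
  tfae_have 1 → 4 := fun h => h2.1 (lin_of_lgt hFt hQt hy hcomp h)
  tfae_have 4 → 3 := by
    rintro ⟨G, hG, hGy, hGx⟩
    refine ⟨G, hG, hGy, fun Z _ _ w' z hw hz hzG => ?_⟩
    have hm : MapQ F Q Z w' z := ⟨hz.ne, fun i => hz.mem ⟨F i, hFf i, hy.mem i⟩, hz.off, hz.alg,
      hz.dim⟩
    rcases maps_lgt hF hQ hNb hm with hP | hK
    · exfalso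
      obtain ⟨x, h1, h2, h3, h4⟩ := spec_k hz.off hP hzG
      have hx0 : x ≠ 0 := by
        rintro rfl
        obtain ⟨v, T, ⟨i, j, hij⟩, -⟩ := h4
        apply hij
        simp
      exact h1 (hGx x ⟨hx0, fun H hH h0 => h3 H (hz.mem ⟨H, hH, h0⟩)⟩
        ⟨hx0, fun i => h3 _ (hz.mem ⟨F i, hFf i, hy.mem i⟩), h2⟩ h4)
    · exact lgt_of_kod hz.dim hK
  tfae_have 3 → 2 := fun ⟨G, hG, hGy, h⟩ => ⟨G, hG, hGy, fun Z _ _ w z hw hz hzG =>
    h Z w z hw ⟨hz.ne, hz.mem, hz.off, by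
      rw [hz.gen]
      infer_instance, hz.dim⟩ hzG⟩
  tfae_have 2 → 1 := fun ⟨G, hG, hGy, h⟩ => h K w y hw
    ⟨hy.ne, fun H => H.2.2, hy.off, hy.gen, hy.dim⟩ hGy
  tfae_finish

end Pool.Agent.X333.SV
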